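import Mathlib

/-!
# Covering lemma for bad scales (rising sun)

`δ w ≥ 0` is the sum of all local costs at the scale `w`, `G w` the row which is reached at the
scale `w`, `D w ≤ G (w + 1) - G w` the unsaturated mass of the rows crossed in the step from `w` to
`w + 1`. There is a finite set `B` of scales, a union of disjoint intervals, such that all forward
averages of `δ` from a scale outside `B` are less than `ε`, while little unsaturated mass is crossed
at the scales of `B`, provided that steep steps, from which all longer averages of the costs are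
less than `ε`, cross little unsaturated mass.
-/

set_option autoImplicit false

namespace Pool.KX

open Finset

/-- All forward averages of `δ` from `w` are less than `ε`. -/
def Fwd (δ : ℕ → ℝ) (ε : ℝ) (w : ℕ) : Prop :=
  ∀ L : ℕ, 0 < L → ∑ ρ ∈ Ico w (w + L), δ ρ < ε * L

theorem cov_aux {δ G D : ℕ → ℝ} {ε A E Gm : ℝ} (hε : 0 < ε) (hA : 0 ≤ A) (hE : 0 ≤ E)
    (hδ : ∀ i, 0 ≤ δ i) (hG : Monotone G) (hGm : ∀ i, G i ≤ Gm)
    (hst : ∀ w L : ℕ, 0 < L →
      (∀ R : ℕ, 0 < R → ∑ ρ ∈ Ico w (w + L + R), δ ρ < ε * (L + R)) →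
      ∑ i ∈ Ico w (w + L), D i ≤ A * L + E * (G (w + L) - G w)) :
    ∀ (k : ℕ) (s : ℕ) (S : ℝ), (∀ M, ∑ ρ ∈ Ico s M, δ ρ ≤ S) → S ≤ k * ε →
      ∃ B : Finset ℕ, (∀ i ∈ B, s ≤ i) ∧ (∀ i, s ≤ i → i ∉ B → Fwd δ ε i) ∧
        (B.card : ℝ) ≤ S / ε ∧ ∑ i ∈ B, D i ≤ A * (S / ε) + E * (Gm - G s) := by
  intro k
  induction k with
  | zero =>
    intro s S hS hSk
    have h0 : ∀ ρ, s ≤ ρ → δ ρ = 0 := by
      intro ρ hρ
      have h1 := hS (ρ + 1)
      have h2 : δ ρ ≤ ∑ ρ ∈ Ico s (ρ + 1), δ ρ :=
        Finset.single_le_sum (f := δ) (fun i _ => hδ i) (by simp; omega)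
      have h3 := hδ ρ
      simp only [Nat.cast_zero, zero_mul] at hSk
      linarith
    have hS0 : 0 ≤ S := by simpa using hS s
    refine ⟨∅, by simp, fun i hi _ L hL => ?_, ?_, ?_⟩
    · rw [Finset.sum_eq_zero fun ρ hρ => h0 ρ (by simp at hρ; omega)]
      have : (0 : ℝ) < L := by exact_mod_cast hL
      positivity
    · simp only [card_empty, Nat.cast_zero]; positivity
    · simp only [sum_empty]
      have := hGm s
      have h4 : 0 ≤ Gm - G s := by linarith
      positivity
  | succ k ih =>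
    intro s S hS hSk
    have hS0 : 0 ≤ S := by simpa using hS s
    by_cases hall : ∀ i, s ≤ i → Fwd δ ε i
    · refine ⟨∅, by simp, fun i hi _ => hall i hi, ?_, ?_⟩
      · simp only [card_empty, Nat.cast_zero]; positivity
      · simp only [sum_empty]
        have := hGm s
        have h4 : 0 ≤ Gm - G s := by linarith
        positivity
    · classical
      have hex : ∃ w, s ≤ w ∧ ¬ Fwd δ ε w := by
        push Not at hall; exact hall
      -- the first bad scale
      set w := Nat.find hex with hw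
      have hsw : s ≤ w := (Nat.find_spec hex).1
      have hbad : ¬ Fwd δ ε w := (Nat.find_spec hex).2
      have hfirst : ∀ i, s ≤ i → i < w → Fwd δ ε i := by
        intro i hi hiw
        by_contra hcon
        exact Nat.find_min hex hiw ⟨hi, hcon⟩
      -- the largest bad length
      have hexL : ∃ L : ℕ, 0 < L ∧ ε * L ≤ ∑ ρ ∈ Ico w (w + L), δ ρ := by
        unfold Fwd at hbad
        push Not at hbad
        exact hbad
      have hsub : ∀ M, ∑ ρ ∈ Ico w M, δ ρ ≤ S := by
        intro M
        refine le_trans ?_ (hS M)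
        exact Finset.sum_le_sum_of_subset_of_nonneg
          (Finset.Ico_subset_Ico_left hsw) fun i _ _ => hδ i
      have hbound : ∀ L : ℕ, ε * L ≤ ∑ ρ ∈ Ico w (w + L), δ ρ → L ≤ ⌊S / ε⌋₊ := by
        intro L hL
        apply Nat.le_floor
        rw [le_div_iff₀ hε]
        have := hsub (w + L)
        linarith
      obtain ⟨L, hL0, hL1, hL2⟩ : ∃ L : ℕ, 0 < L ∧ ε * L ≤ ∑ ρ ∈ Ico w (w + L), δ ρ ∧
          ∀ L' : ℕ, L < L' → ∑ ρ ∈ Ico w (w + L'), δ ρ < ε * L' := by
        set F : Finset ℕ := (Finset.range (⌊S / ε⌋₊ + 1)).filter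
          (fun L => 0 < L ∧ ε * L ≤ ∑ ρ ∈ Ico w (w + L), δ ρ) with hF
        have hne : F.Nonempty := by
          obtain ⟨L, h1, h2⟩ := hexL
          exact ⟨L, by
            rw [hF, mem_filter, mem_range]
            exact ⟨Nat.lt_succ_of_le (hbound L h2), h1, h2⟩⟩
        have hmem : 0 < F.max' hne ∧
            ε * (F.max' hne : ℕ) ≤ ∑ ρ ∈ Ico w (w + F.max' hne), δ ρ :=
          (mem_filter.mp (F.max'_mem hne)).2
        refine ⟨F.max' hne, hmem.1, hmem.2, fun L' hL' => ?_⟩
        by_contra hcon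
        push Not at hcon
        have h3 : L' ∈ F := by
          rw [hF, mem_filter, mem_range]
          exact ⟨Nat.lt_succ_of_le (hbound L' hcon), by omega, hcon⟩
        exact absurd (F.le_max' L' h3) (by omega)
      have hLr : (0 : ℝ) < L := by exact_mod_cast hL0
      have hL1r : (1 : ℝ) ≤ L := by exact_mod_cast hL0
      -- the rest
      have hsplit : ∀ M, w + L ≤ M →
          ∑ ρ ∈ Ico w M, δ ρ = ∑ ρ ∈ Ico w (w + L), δ ρ + ∑ ρ ∈ Ico (w + L) M, δ ρ :=
        fun M hM => (Finset.sum_Ico_consecutive δ (by omega) hM).symm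
      have hS' : ∀ M, ∑ ρ ∈ Ico (w + L) M, δ ρ ≤ S - ε * L := by
        intro M
        rcases le_total (w + L) M with h | h
        · have h1 := hsplit M h
          have h2 := hsub M
          linarith
        · rw [Finset.Ico_eq_empty_of_le h, sum_empty]
          have h2 := hsub (w + L)
          linarith
      have hSk' : S - ε * L ≤ k * ε := by
        push_cast at hSk
        nlinarith
      obtain ⟨B, hB1, hB2, hB3, hB4⟩ := ih (w + L) (S - ε * L) hS' hSk'
      have hdisj : Disjoint (Ico w (w + L)) B := by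
        rw [Finset.disjoint_left]
        intro i hi hiB
        have := hB1 i hiB
        rw [mem_Ico] at hi
        omega
      refine ⟨Ico w (w + L) ∪ B, ?_, ?_, ?_, ?_⟩
      · intro i hi
        rw [mem_union, mem_Ico] at hi
        rcases hi with hi | hi
        · omega
        · have := hB1 i hi; omega
      · intro i hi hiB
        rw [mem_union, mem_Ico, not_or] at hiB
        rcases lt_or_ge i w with h | h
        · exact hfirst i hi h
        · exact hB2 i (by omega) hiB.2
      · rw [card_union_of_disjoint hdisj, Nat.card_Ico]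
        push_cast
        have h5 : ((w + L - w : ℕ) : ℝ) = L := by
          rw [Nat.add_sub_cancel_left]
        rw [h5]
        have h6 : S / ε = L + (S - ε * L) / ε := by field_simp; ring
        linarith
      · rw [sum_union hdisj]
        have hmono : G s ≤ G w := hG hsw
        have hmono2 : G w ≤ G (w + L) := hG (by omega)
        have hDI := hst w L hL0 (fun R hR => by
          have := hL2 (L + R) (by omega)
          rw [← add_assoc] at this
          push_cast at this
          exact this)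
        have h12 : A * (S / ε) = A * L + A * ((S - ε * L) / ε) := by field_simp; ring
        have h13 : E * (G (w + L) - G w) + E * (Gm - G (w + L)) ≤ E * (Gm - G s) := by
          nlinarith
        linarith

/-- **Covering lemma, general form.** The costs have total sum at most `S`. The stretches from which
all longer averages of the costs are less than `ε` cross a mass at most `A L + E (rise)`. -/
theorem cov_gen {δ G D : ℕ → ℝ} {ε A E Gm S : ℝ} (hε : 0 < ε) (hA : 0 ≤ A) (hE : 0 ≤ E)
    (hδ : ∀ i, 0 ≤ δ i) (hS : ∀ M, ∑ ρ ∈ range M, δ ρ ≤ S)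
    (hG : Monotone G) (hGm : ∀ i, G i ≤ Gm)
    (hst : ∀ w L : ℕ, 0 < L →
      (∀ R : ℕ, 0 < R → ∑ ρ ∈ Ico w (w + L + R), δ ρ < ε * (L + R)) →
      ∑ i ∈ Ico w (w + L), D i ≤ A * L + E * (G (w + L) - G w)) :
    ∃ B : Finset ℕ, (∀ i, i ∉ B → Fwd δ ε i) ∧ (B.card : ℝ) ≤ S / ε ∧
      ∑ i ∈ B, D i ≤ A * (S / ε) + E * (Gm - G 0) := by
  obtain ⟨B, _, h2, h3, h4⟩ := cov_aux hε hA hE hδ hG hGm hst ⌈S / ε⌉₊ 0 S
    (fun M => by rw [← Finset.range_eq_Ico]; exact hS M)
    (by have := Nat.le_ceil (S / ε); rwa [div_le_iff₀ hε] at this)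
  exact ⟨B, fun i hi => h2 i (Nat.zero_le _) hi, h3, h4⟩

/-- **Covering lemma.** The costs have total sum at most `S`. There is a finite set `B` of at most
`S / ε` scales such that all forward averages of the costs from the scales outside `B` are less
than `ε`, and the unsaturated mass crossed at the scales of `B` is at most
`S / ε ^ 2 + C ε (Gm - G 0)`. -/
theorem cov_thm {δ G D : ℕ → ℝ} {ε C Gm S : ℝ} (hε : 0 < ε) (hC : 0 ≤ C)
    (hδ : ∀ i, 0 ≤ δ i) (hS : ∀ M, ∑ ρ ∈ range M, δ ρ ≤ S)
    (hG : Monotone G) (hGm : ∀ i, G i ≤ Gm) (hD : ∀ i, D i ≤ G (i + 1) - G i)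
    (hst : ∀ w L : ℕ, 0 < L → (L : ℝ) ≤ ε * (G (w + L) - G w) →
      (∀ R : ℕ, 0 < R → ∑ ρ ∈ Ico w (w + L + R), δ ρ < ε * (L + R)) →
      ∑ i ∈ Ico w (w + L), D i ≤ C * ε * (G (w + L) - G w)) :
    ∃ B : Finset ℕ, (∀ i, i ∉ B → Fwd δ ε i) ∧ (B.card : ℝ) ≤ S / ε ∧
      ∑ i ∈ B, D i ≤ S / ε ^ 2 + C * ε * (Gm - G 0) := by
  obtain ⟨B, h1, h2, h3⟩ := cov_gen (D := D) (A := 1 / ε) (E := C * ε) hε (by positivity)
    (by positivity) hδ hS hG hGm (fun w L hL0 hL2 => by
      have hmono2 : G w ≤ G (w + L) := hG (by omega)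
      by_cases hsteep : (L : ℝ) ≤ ε * (G (w + L) - G w)
      · have h7 := hst w L hL0 hsteep hL2
        have h8 : 0 ≤ 1 / ε * (L : ℝ) := by positivity
        linarith
      · push Not at hsteep
        have h9 : ∑ i ∈ Ico w (w + L), D i ≤ G (w + L) - G w := by
          calc ∑ i ∈ Ico w (w + L), D i ≤ ∑ i ∈ Ico w (w + L), (G (i + 1) - G i) :=
                Finset.sum_le_sum fun i _ => hD i
            _ = G (w + L) - G w := Finset.sum_Ico_sub G (by omega)
        have h10 : G (w + L) - G w ≤ 1 / ε * L := by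
          rw [one_div, inv_mul_eq_div, le_div_iff₀ hε]; linarith
        have h11 : 0 ≤ C * ε * (G (w + L) - G w) := by
          have : 0 ≤ G (w + L) - G w := by linarith
          positivity
        linarith)
  refine ⟨B, h1, h2, h3.trans (le_of_eq ?_)⟩
  congr 1
  field_simp

end Pool.KX
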