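import Pool.Agent.H59.KX.COV

/-!
# Rows between two windows: bookkeeping

`F w` is the row which is reached at the scale `w`, `D P` in `[0, 1]` the deficit of the row `P`,
`δ w` the sum of all local costs at the scale `w`. Hypothesis `hone`: at a scale with small forward
averages of the costs, a step over at most `K` rows crosses rows of total deficit at most `ε`.
Hypothesis `hst`: a steep stretch over more than `K` rows, whose local costs are small on average,
crosses rows of total deficit at most `C ε` times their number. Conclusion: the rows between two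
windows are full on average, up to `O(ε)`.
-/

set_option autoImplicit false

namespace Pool.KX

open Finset

/-- **Rows between two windows.** -/
theorem row_thm {F : ℕ → ℕ} {D δ : ℕ → ℝ} {ε C S : ℝ} {K Gm N : ℕ} (hε : 0 < ε) (hC : 0 ≤ C)
    (hK : 1 / ε ≤ K) (hF : Monotone F) (hGm : ∀ w, F w ≤ Gm)
    (hD0 : ∀ P, 0 ≤ D P) (hD1 : ∀ P, D P ≤ 1)
    (hδ : ∀ i, 0 ≤ δ i) (hS : ∀ M, ∑ ρ ∈ range M, δ ρ ≤ S)
    (hone : ∀ w < N, Fwd δ ε w → F (w + 1) ≤ F w + K →
      ∑ P ∈ Ioc (F w) (F (w + 1)), D P ≤ ε)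
    (hst : ∀ w L : ℕ, 0 < L → F w + K < F (w + L) →
      (L : ℝ) ≤ ε * ((F (w + L) : ℝ) - F w) →
      (∀ R : ℕ, 0 < R → ∑ ρ ∈ Ico w (w + L + R), δ ρ < ε * (L + R)) →
      ∑ P ∈ Ioc (F w) (F (w + L)), D P ≤ C * ε * ((F (w + L) : ℝ) - F w)) :
    ∑ P ∈ Ioc (F 0) (F N), D P ≤
      ε * N + C * ε * ((F N : ℝ) - F 0) + K * (S / ε) + C * ε * ((Gm : ℝ) - F 0) := by
  classical
  have hKr : (0 : ℝ) < K := lt_of_lt_of_le (by positivity) hK
  -- the deficit crossed in one step
  set Dc : ℕ → ℝ := fun w => ∑ P ∈ Ioc (F w) (F (w + 1)), D P with hDc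
  have hcons : ∀ w L, ∑ i ∈ Ico w (w + L), Dc i = ∑ P ∈ Ioc (F w) (F (w + L)), D P := by
    intro w L
    induction L with
    | zero => simp
    | succ L ih =>
      rw [← add_assoc, Finset.sum_Ico_succ_top (by omega), ih, hDc]
      have h1 : F w ≤ F (w + L) := hF (by omega)
      have h2 : F (w + L) ≤ F (w + L + 1) := hF (by omega)
      have h3 : Disjoint (Ioc (F w) (F (w + L))) (Ioc (F (w + L)) (F (w + L + 1))) := by
        rw [Finset.disjoint_left]
        intro P hP hP'
        rw [mem_Ioc] at hP hP'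
        omega
      rw [← Finset.sum_union h3, Finset.Ioc_union_Ioc_eq_Ioc h1 h2]
  have hDc0 : ∀ w, 0 ≤ Dc w := fun w => Finset.sum_nonneg fun P _ => hD0 P
  have hcard : ∀ a b : ℕ, a ≤ b → ∑ P ∈ Ioc a b, D P ≤ (b : ℝ) - a := by
    intro a b hab
    calc ∑ P ∈ Ioc a b, D P ≤ ∑ _P ∈ Ioc a b, (1 : ℝ) := Finset.sum_le_sum fun P _ => hD1 P
      _ = (b : ℝ) - a := by
        rw [Finset.sum_const, Nat.card_Ioc, nsmul_eq_mul, mul_one, Nat.cast_sub hab]
  have hmono : ∀ a b, a ≤ b → (F a : ℝ) ≤ F b := fun a b h => by exact_mod_cast hF h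
  obtain ⟨B, hB1, -, hB3⟩ := cov_gen (D := Dc) (G := fun w => (F w : ℝ)) (A := K) (E := C * ε)
    (Gm := (Gm : ℝ)) hε hKr.le (by positivity) hδ hS (fun a b h => hmono a b h)
    (fun i => by exact_mod_cast hGm i) (fun w L hL0 hL2 => by
      have hLr : (1 : ℝ) ≤ L := by exact_mod_cast hL0
      have hm := hmono w (w + L) (by omega)
      have hc := hcard _ _ (hF (show w ≤ w + L by omega))
      have hE0 : 0 ≤ C * ε * ((F (w + L) : ℝ) - F w) := by
        have : 0 ≤ (F (w + L) : ℝ) - F w := by linarith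
        positivity
      rw [hcons]
      rcases le_or_gt (F (w + L)) (F w + K) with h1 | h1
      · have h2 : (F (w + L) : ℝ) - F w ≤ K := by
          have : (F (w + L) : ℝ) ≤ F w + K := by exact_mod_cast h1
          linarith
        have h3 : (K : ℝ) ≤ K * L := le_mul_of_one_le_right hKr.le hLr
        linarith
      · rcases le_or_gt (L : ℝ) (ε * ((F (w + L) : ℝ) - F w)) with h2 | h2
        · have h3 := hst w L hL0 h1 h2 hL2
          have h4 : 0 ≤ (K : ℝ) * L := by positivity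
          linarith
        · have h3 : (F (w + L) : ℝ) - F w ≤ K * L := by
            have h4 : (F (w + L) : ℝ) - F w ≤ 1 / ε * L := by
              rw [one_div, inv_mul_eq_div, le_div_iff₀ hε]; linarith
            have h5 : 1 / ε * (L : ℝ) ≤ K * L := mul_le_mul_of_nonneg_right hK (by linarith)
            linarith
          linarith)
  -- the steps outside `B`
  have hout : ∀ w < N, w ∉ B → Dc w ≤ ε + C * ε * ((F (w + 1) : ℝ) - F w) := by
    intro w hw hwB
    have hf := hB1 w hwB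
    have hm := hmono w (w + 1) (by omega)
    rcases le_or_gt (F (w + 1)) (F w + K) with h1 | h1
    · have h2 := hone w hw hf h1
      have h3 : 0 ≤ C * ε * ((F (w + 1) : ℝ) - F w) := by
        have : 0 ≤ (F (w + 1) : ℝ) - F w := by linarith
        positivity
      show ∑ P ∈ Ioc (F w) (F (w + 1)), D P ≤ _
      linarith
    · have h2 : ((1 : ℕ) : ℝ) ≤ ε * ((F (w + 1) : ℝ) - F w) := by
        have h3 : (K : ℝ) ≤ (F (w + 1) : ℝ) - F w := by
          have : ((F w + K : ℕ) : ℝ) ≤ F (w + 1) := by exact_mod_cast h1.le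
          push_cast at this
          linarith
        have h4 : 1 / ε ≤ (F (w + 1) : ℝ) - F w := hK.trans h3
        rw [div_le_iff₀ hε] at h4
        push_cast
        linarith
      have h3 := hst w 1 Nat.one_pos h1 h2 (fun R hR => by
        have := hf (1 + R) (by omega)
        rw [← add_assoc] at this
        push_cast at this ⊢
        exact this)
      show ∑ P ∈ Ioc (F w) (F (w + 1)), D P ≤ _
      linarith
  have hsum : ∑ P ∈ Ioc (F 0) (F N), D P = ∑ w ∈ range N, Dc w := by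
    have := hcons 0 N
    rw [zero_add] at this
    rw [← this, Finset.range_eq_Ico]
  rw [hsum, ← Finset.sum_filter_add_sum_filter_not (range N) (fun w => w ∈ B)]
  have h1 : ∑ w ∈ (range N).filter (fun w => w ∈ B), Dc w ≤ ∑ w ∈ B, Dc w :=
    Finset.sum_le_sum_of_subset_of_nonneg (fun w hw => (mem_filter.1 hw).2) fun w _ _ => hDc0 w
  have h2 : ∑ w ∈ (range N).filter (fun w => w ∉ B), Dc w ≤
      ε * N + C * ε * ((F N : ℝ) - F 0) := by
    calc ∑ w ∈ (range N).filter (fun w => w ∉ B), Dc w ≤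
        ∑ w ∈ (range N).filter (fun w => w ∉ B), (ε + C * ε * ((F (w + 1) : ℝ) - F w)) :=
          Finset.sum_le_sum fun w hw => by
            rw [mem_filter, mem_range] at hw
            exact hout w hw.1 hw.2
      _ ≤ ∑ w ∈ range N, (ε + C * ε * ((F (w + 1) : ℝ) - F w)) :=
          Finset.sum_le_sum_of_subset_of_nonneg (Finset.filter_subset _ _) fun w _ _ => by
            have := hmono w (w + 1) (by omega)
            have : 0 ≤ (F (w + 1) : ℝ) - F w := by linarith
            positivity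
      _ = ε * N + C * ε * ((F N : ℝ) - F 0) := by
          rw [Finset.sum_add_distrib, ← Finset.mul_sum,
            Finset.sum_range_sub (fun w => (F w : ℝ)) N]
          simp [mul_comm]
  linarith

/-- Contradiction with a mean deficit at least `c` on the rows `(F 0, F N]`. -/
theorem row_contra {F : ℕ → ℕ} {D δ : ℕ → ℝ} {ε C S c : ℝ} {K Gm N : ℕ} (hε : 0 < ε)
    (hC : 0 ≤ C) (hK : 1 / ε ≤ K) (hF : StrictMonoOn F (Set.Iic N)) (hFm : Monotone F)
    (hGm : ∀ w, F w ≤ Gm)
    (hD0 : ∀ P, 0 ≤ D P) (hD1 : ∀ P, D P ≤ 1)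
    (hδ : ∀ i, 0 ≤ δ i) (hS : ∀ M, ∑ ρ ∈ range M, δ ρ ≤ S)
    (hone : ∀ w < N, Fwd δ ε w → F (w + 1) ≤ F w + K →
      ∑ P ∈ Ioc (F w) (F (w + 1)), D P ≤ ε)
    (hst : ∀ w L : ℕ, 0 < L → F w + K < F (w + L) →
      (L : ℝ) ≤ ε * ((F (w + L) : ℝ) - F w) →
      (∀ R : ℕ, 0 < R → ∑ ρ ∈ Ico w (w + L + R), δ ρ < ε * (L + R)) →
      ∑ P ∈ Ioc (F w) (F (w + L)), D P ≤ C * ε * ((F (w + L) : ℝ) - F w))
    (hdef : c * ((F N : ℝ) - F 0) ≤ ∑ P ∈ Ioc (F 0) (F N), D P)
    (hsmall : ((1 + C) * ε) * ((F N : ℝ) - F 0) + K * (S / ε) + C * ε * ((Gm : ℝ) - F 0) <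
      c * ((F N : ℝ) - F 0)) : False := by
  have h1 := row_thm hε hC hK hFm hGm hD0 hD1 hδ hS hone hst
  have h2 : ∀ n ≤ N, n ≤ F n - F 0 ∧ F 0 ≤ F n := by
    intro n
    induction n with
    | zero => intro _; exact ⟨Nat.zero_le _, le_rfl⟩
    | succ n ih =>
      intro hn
      have h3 := ih (by omega)
      have h4 : F n < F (n + 1) := hF (by simp; omega) (by simpa using hn) (by omega)
      omega
  have h3 : (N : ℝ) ≤ (F N : ℝ) - F 0 := by
    have h4 := h2 N le_rfl
    have h5 : (N : ℝ) ≤ ((F N - F 0 : ℕ) : ℝ) := by exact_mod_cast h4.1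
    rwa [Nat.cast_sub h4.2] at h5
  have h4 : ε * (N : ℝ) ≤ ε * ((F N : ℝ) - F 0) := mul_le_mul_of_nonneg_left h3 hε.le
  nlinarith

end Pool.KX
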